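import Pool.Agent.Lib.MP_7e344a_al.Final

/-!
# Products of two subgroups of special rank two

Every countable group embeds in a countable group `G = A B` of infinite special rank, where `A` and
`B` are isomorphic torsion-free subgroups of special rank two.
-/

set_option autoImplicit false

namespace Pool.Agent.Results.MP_7e344a_al.SpecialRankProduct

/-- `r` is the special rank (Mal'cev rank) of the group `H`: every finitely generated subgroup of `H`
can be generated by at most `r` elements, and `r` is the least natural number with this property. -/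
def HasSpecialRank (H : Type) [Group H] (r : ℕ) : Prop :=
  (∀ K : Subgroup H, K.FG → ∃ s : Finset H, s.card ≤ r ∧ Subgroup.closure (s : Set H) = K) ∧
    ∀ n : ℕ, (∀ K : Subgroup H, K.FG →
      ∃ s : Finset H, s.card ≤ n ∧ Subgroup.closure (s : Set H) = K) → r ≤ n

theorem of_equiv {H H' : Type} [Group H] [Group H'] (e : H ≃* H') (n : ℕ)
    (h : ∀ K : Subgroup H, K.FG → ∃ s : Finset H, s.card ≤ n ∧ Subgroup.closure (s : Set H) = K) :
    ∀ K : Subgroup H', K.FG →
      ∃ s : Finset H', s.card ≤ n ∧ Subgroup.closure (s : Set H') = K := by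
  classical
  intro K hK
  have hK' : (K.map e.symm.toMonoidHom).FG := by
    rw [Subgroup.fg_iff] at hK ⊢
    obtain ⟨S, hS, hfin⟩ := hK
    exact ⟨e.symm.toMonoidHom '' S, by rw [← MonoidHom.map_closure, hS], hfin.image _⟩
  obtain ⟨s, hs, hsK⟩ := h _ hK'
  refine ⟨s.image e, le_trans Finset.card_image_le hs, ?_⟩
  have h1 : Subgroup.closure (((s.image e : Finset H') : Set H')) =
      (Subgroup.closure (s : Set H)).map e.toMonoidHom := by
    rw [MonoidHom.map_closure, Finset.coe_image]
    rfl
  rw [h1, hsK, Subgroup.map_map]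
  have h2 : e.toMonoidHom.comp e.symm.toMonoidHom = MonoidHom.id H' := by
    ext x
    simp
  rw [h2, Subgroup.map_id]

theorem hasSpecialRank_equiv {H H' : Type} [Group H] [Group H'] (e : H ≃* H') {r : ℕ}
    (h : HasSpecialRank H r) : HasSpecialRank H' r :=
  ⟨of_equiv e r h.1, fun n hn => h.2 n (of_equiv e.symm n hn)⟩

open Pool.Agent.Lib.MP_7e344a_al in
theorem not_comm_of_mif {A : Type} [Group A] (hA : MIF A) : ∃ a b : A, a * b ≠ b * a := by
  classical
  let x : Monoid.Coprod A (Multiplicative ℤ) := Monoid.Coprod.inr (Multiplicative.ofAdd 1)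
  have hx : x ≠ 1 := by
    intro h
    have h1 := congrArg (Monoid.Coprod.snd : Monoid.Coprod A (Multiplicative ℤ) →* _) h
    rw [map_one, Monoid.Coprod.snd_apply_inr] at h1
    exact absurd (congrArg Multiplicative.toAdd h1) (by simp)
  obtain ⟨a, ha⟩ := hA {x} (by simpa using hx.symm)
  have ha1 : a ≠ 1 := by
    have h := ha x (by simp)
    intro h0
    apply h
    rw [h0]
    simp [retr, x]
  let ρ : A →* Equiv.Perm (Option A) :=
    { toFun := fun c => Equiv.optionCongr (Equiv.mulLeft c)
      map_one' := by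
        ext y
        cases y <;> simp
      map_mul' := fun c d => by
        ext y
        cases y <;> simp [mul_assoc] }
  let φ : Monoid.Coprod A (Multiplicative ℤ) →* Equiv.Perm (Option A) :=
    Monoid.Coprod.lift ρ (zpowersHom _ (Equiv.swap (some 1) none))
  have hφa : φ (Monoid.Coprod.inl a) = ρ a := Monoid.Coprod.lift_apply_inl _ _ _
  have hφx : φ x = Equiv.swap (some 1) none := by
    simp [φ, x]
  have hw : Monoid.Coprod.inl a * x * Monoid.Coprod.inl a⁻¹ * x⁻¹ ≠ 1 := by
    intro h
    have h1 : Monoid.Coprod.inl a * x = x * Monoid.Coprod.inl a := by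
      have h2 := congrArg (fun y => y * x * Monoid.Coprod.inl a) h
      simp only [one_mul] at h2
      rw [← h2, map_inv]
      group
    have h3 := congrArg φ h1
    rw [map_mul, map_mul, hφa, hφx] at h3
    have h4 := congrArg (fun e : Equiv.Perm (Option A) => e (some 1)) h3
    simp only [Equiv.Perm.coe_mul, Function.comp_apply, Equiv.swap_apply_left] at h4
    have h5 : ρ a none = none := by simp [ρ]
    have h6 : ρ a (some 1) = some a := by simp [ρ]
    rw [h5, h6, Equiv.swap_apply_of_ne_of_ne (by simpa using ha1) (by simp)] at h4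
    exact absurd h4 (by simp)
  obtain ⟨t, ht⟩ := hA {Monoid.Coprod.inl a * x * Monoid.Coprod.inl a⁻¹ * x⁻¹}
    (by simpa using hw.symm)
  refine ⟨a, t, fun hat => ht _ (Finset.mem_singleton_self _) ?_⟩
  have hrx : retr t x = t := by
    simp [retr, x]
  have hra : ∀ c : A, retr t (Monoid.Coprod.inl c) = c := fun c => by simp [retr]
  rw [map_mul, map_mul, map_mul, map_inv (retr t) x, hrx, hra, hra, hat]
  group

theorem rank_two_of {A : Type} [Group A]
    (h : ∀ S : Finset A, ∃ a b : A, Subgroup.closure (S : Set A) = Subgroup.closure {a, b})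
    (hne : ∃ a b : A, a * b ≠ b * a) : HasSpecialRank A 2 := by
  classical
  refine ⟨fun K hK => ?_, fun n hn => ?_⟩
  · obtain ⟨S, hS⟩ := hK
    obtain ⟨a, b, hab⟩ := h S
    refine ⟨{a, b}, Finset.card_le_two, ?_⟩
    rw [Finset.coe_pair, ← hab, hS]
  · by_contra hlt
    have hn1 : n ≤ 1 := by omega
    obtain ⟨a, b, hab⟩ := hne
    obtain ⟨s, hs, hsK⟩ := hn (Subgroup.closure {a, b}) ⟨{a, b}, by simp⟩
    have hs1 : s.card ≤ 1 := le_trans hs hn1
    have hcyc : ∃ c : A, Subgroup.closure (s : Set A) = Subgroup.zpowers c := by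
      rcases Finset.card_le_one_iff_subset_singleton.1 hs1 with ⟨c, hc⟩
      rcases Finset.subset_singleton_iff.1 hc with h0 | h0
      · refine ⟨1, ?_⟩
        rw [h0]
        simp
      · refine ⟨c, ?_⟩
        rw [h0, Finset.coe_singleton, Subgroup.zpowers_eq_closure]
    obtain ⟨c, hc⟩ := hcyc
    have ha : a ∈ Subgroup.zpowers c := by
      rw [← hc, hsK]
      exact Subgroup.subset_closure (by simp)
    have hb : b ∈ Subgroup.zpowers c := by
      rw [← hc, hsK]
      exact Subgroup.subset_closure (by simp)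
    obtain ⟨m, rfl⟩ := Subgroup.mem_zpowers_iff.1 ha
    obtain ⟨k, rfl⟩ := Subgroup.mem_zpowers_iff.1 hb
    exact hab ((Commute.refl c).zpow_zpow m k)

open Pool.Agent.Lib.MP_7e344a_al in
/-- Every countable group embeds in a countable group of infinite special rank which is the product of
two isomorphic torsion-free subgroups of special rank two. -/
theorem result (C : Type) [Group C] [Countable C] :
    ∃ (G : Type) (_ : Group G) (A B : Subgroup G),
      Countable G ∧ (∃ k : C →* G, Function.Injective k) ∧ (∀ r : ℕ, ¬ HasSpecialRank G r) ∧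
      (∀ g : G, ∃ a ∈ A, ∃ b ∈ B, g = a * b) ∧
      HasSpecialRank A 2 ∧ HasSpecialRank B 2 ∧ Nonempty (A ≃* B) ∧
      ∀ a ∈ A, ∀ n : ℕ, 0 < n → a ^ n = 1 → a = 1 := by
  obtain ⟨M, _, hc, tM, mM, hM⟩ := monster
  have : Countable (Multiplicative (ℕ →₀ ZMod 2)) := inferInstanceAs (Countable (ℕ →₀ ZMod 2))
  obtain ⟨G, _, i, j, k, hi, hj, hk, h⟩ :=
    product_group M M (C × Multiplicative (ℕ →₀ ZMod 2)) tM tM mM mM
  have hr2 := rank_two_of hM (not_comm_of_mif mM)
  let ei : M ≃* i.range := MonoidHom.ofInjective hi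
  let ej : M ≃* j.range := MonoidHom.ofInjective hj
  refine ⟨G, inferInstance, i.range, j.range, ?_, ⟨k.comp (MonoidHom.inl _ _), ?_⟩, ?_, fun g => ?_,
    hasSpecialRank_equiv ei hr2, hasSpecialRank_equiv ej hr2, ⟨ei.symm.trans ej⟩, ?_⟩
  · have hs : Function.Surjective fun p : M × M => i p.1 * j p.2 := fun g => by
      obtain ⟨a, b, hab⟩ := h g
      exact ⟨(a, b), hab⟩
    exact hs.countable
  · intro x y hxy
    exact congrArg Prod.fst (hk hxy)
  · intro r hr
    refine rank_inf (k.comp (MonoidHom.inr _ _)) ?_ ⟨r, hr.1⟩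
    intro x y hxy
    exact congrArg Prod.snd (hk hxy)
  · obtain ⟨a, b, hab⟩ := h g
    exact ⟨i a, ⟨a, rfl⟩, j b, ⟨b, rfl⟩, hab.symm⟩
  · rintro _ ⟨a, rfl⟩ n hn h1
    rw [← map_pow] at h1
    have := tM a n hn (hi (h1.trans (map_one i).symm))
    rw [this, map_one]

end Pool.Agent.Results.MP_7e344a_al.SpecialRankProduct
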